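import Pool.Agent.K1H5.PP.Stm

set_option autoImplicit false

/-! Project PP, piece FG: passage to a finitely generated subgroup (helper85) -/

namespace Pool.Agent.K1H85.PP

open MonoidAlgebra Pool.Agent.K1H5.PP

universe u

/-- the augmentation -/
noncomputable def aug {G : Type u} [Group G] (a : MonoidAlgebra ℤ G) : ℤ :=
  a.coeff.sum fun _ c => c

theorem aug_zero {G : Type u} [Group G] : aug (0 : MonoidAlgebra ℤ G) = 0 := by
  unfold aug
  rw [coeff_zero]
  exact Finsupp.sum_zero_index

theorem aug_add {G : Type u} [Group G] (a b : MonoidAlgebra ℤ G) :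
    aug (a + b) = aug a + aug b := by
  unfold aug
  rw [coeff_add]
  exact Finsupp.sum_add_index' (fun _ => rfl) (fun _ _ _ => rfl)

theorem aug_single {G : Type u} [Group G] (g : G) (c : ℤ) :
    aug (single g c : MonoidAlgebra ℤ G) = c := by
  unfold aug
  rw [coeff_single]
  exact Finsupp.sum_single_index rfl

theorem van_top {G : Type u} [Group G] (a : MonoidAlgebra ℤ G) :
    Van (⊤ : Subgroup G) a ↔ aug a = 0 := by
  classical
  unfold Van aug Finsupp.sum
  constructor
  · intro h
    have h1 := h 1
    rwa [Finset.filter_true_of_mem (fun _ _ => Subgroup.mem_top _)] at h1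
  · intro h g
    rwa [Finset.filter_true_of_mem (fun _ _ => Subgroup.mem_top _)]

theorem aug_map {G : Type u} [Group G] (H : Subgroup G) (x : MonoidAlgebra ℤ H) :
    aug (mapDomainRingHom ℤ H.subtype x) = aug x := by
  induction x using MonoidAlgebra.induction_linear with
  | zero => rw [map_zero, aug_zero, aug_zero]
  | add x y hx hy => rw [map_add, aug_add, aug_add, hx, hy]
  | single h r =>
    have : mapDomainRingHom ℤ H.subtype (single h r) = single (h : G) r := by simp
    rw [this, aug_single, aug_single]

theorem t_FG : S_FG.{u} := by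
  classical
  intro G _ n A hPI
  obtain ⟨hA, hA0, hV⟩ := hPI
  let T : Finset G := Finset.univ.biUnion fun q : Fin n × Fin n => (A q.1 q.2).coeff.support
  let H : Subgroup G := Subgroup.closure (T : Set G)
  have hT : ∀ i j h, (A i j).coeff h ≠ 0 → h ∈ H := by
    intro i j h hh
    apply Subgroup.subset_closure
    exact Finset.mem_coe.2 (Finset.mem_biUnion.2 ⟨(i, j), Finset.mem_univ _,
      Finsupp.mem_support_iff.2 hh⟩)
  have hres : ∀ i j, ∃ x : MonoidAlgebra ℤ H, mapDomainRingHom ℤ H.subtype x = A i j := by
    intro i j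
    refine ⟨∑ y ∈ (A i j).coeff.support.attach,
      single ⟨y.1, hT i j y.1 (Finsupp.mem_support_iff.1 y.2)⟩ ((A i j).coeff y.1), ?_⟩
    rw [map_sum]
    have h1 : ∀ y ∈ (A i j).coeff.support.attach, mapDomainRingHom ℤ H.subtype
        (single (⟨y.1, hT i j y.1 (Finsupp.mem_support_iff.1 y.2)⟩ : H) ((A i j).coeff y.1)) =
        single y.1 ((A i j).coeff y.1) := by
      intro y _
      simp
    rw [Finset.sum_congr rfl h1, Finset.sum_attach _ (fun y => single y ((A i j).coeff y))]
    ext h
    rw [coeff_sum, Finsupp.finsetSum_apply]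
    have h2 : ∀ y ∈ (A i j).coeff.support, (single y ((A i j).coeff y) : MonoidAlgebra ℤ G).coeff h =
        if y = h then (A i j).coeff y else 0 := by
      intro y _
      rw [coeff_single, Finsupp.single_apply]
    rw [Finset.sum_congr rfl h2, Finset.sum_ite_eq']
    split_ifs with h3
    · rfl
    · exact (Finsupp.notMem_support_iff.1 h3).symm
  choose B hB using hres
  let B' : Matrix (Fin n) (Fin n) (MonoidAlgebra ℤ H) := Matrix.of B
  have hmap : B'.map (mapDomainRingHom ℤ H.subtype) = A := by
    ext1 i j
    exact hB i j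
  have hinj : Function.Injective (mapDomainRingHom ℤ H.subtype) := by
    intro x y hxy
    exact mapDomain_injective H.subtype_injective hxy
  have hB' : B' * B' = B' := by
    have h2 : (B' * B').map (mapDomainRingHom ℤ H.subtype) =
        B'.map (mapDomainRingHom ℤ H.subtype) := by
      rw [Matrix.map_mul, hmap, hA]
    ext1 i j
    exact hinj (congrFun (congrFun h2 i) j)
  refine ⟨H, ⟨T, rfl⟩, B', hB', ?_, ?_⟩
  · intro h0
    apply hA0
    rw [← hmap, h0]
    ext1 i j
    exact map_zero (mapDomainRingHom ℤ H.subtype)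
  · intro i j
    rw [van_top, ← aug_map, show mapDomainRingHom ℤ H.subtype (B' i j) = A i j from hB i j,
      ← van_top]
    exact hV i j

end Pool.Agent.K1H85.PP
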